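import Pool.Agent.Helper34.CR.M5

/-!
# M4 of `MP_79ec0d_co`: cleaning a drawing, counting used darts

The permutation level statement (from M3) is taken as a hypothesis.
-/

open Equiv Equiv.Perm

namespace Helper5.CR

/-- Statement of `exists_clean_perm` (M3). -/
def CleanPermStmt : Prop := ∀ {D : Type} [Fintype D] [DecidableEq D] {σ α : Perm D}
    (_ : Planar σ α) (U : D → Prop),
    ∃ σ' : Perm D, Planar σ' α ∧ (∀ d, ¬ U d → σ' d = d) ∧
      ∀ d d', U d → U d' → (σ'.SameCycle d d' ↔ σ.SameCycle d d')

variable {V E : Type} [Fintype E] {src tgt : E → V}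

namespace PreDrawing

lemma used_alpha (P : PreDrawing src tgt) {d : P.D} : P.Used (P.α d) ↔ P.Used d := by
  unfold Used
  constructor
  · rintro ⟨e, h⟩
    rw [P.α_invol] at h
    exact ⟨e, h.symm⟩
  · rintro ⟨e, h⟩
    refine ⟨e, ?_⟩
    rw [P.α_invol]
    exact h.symm

open Classical in
/-- M4a (cleaning). -/
theorem exists_clean_of (hperm : CleanPermStmt) (P : PreDrawing src tgt) :
    ∃ P' : PreDrawing src tgt, P'.Clean ∧
      ∃ i : P'.D ≃ P.D, ∃ j : P.X → P'.X, Function.Injective j ∧
        (∀ d, i (P'.α d) = P.α (i d)) ∧ (∀ e, (P'.route e).map i = P.route e) ∧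
        (∀ d, P'.Used d → P'.pt d = j (P.pt (i d))) ∧ (∀ x, P'.passes (j x) = P.passes x) ∧
        (∀ x, x ∉ Set.range j → P'.passes x = 0) := by
  classical
  obtain ⟨σ', hp, hfix, hsame⟩ := hperm P.planar P.Used
  let pt' : P.D → P.X ⊕ P.D := fun d => if P.Used d then Sum.inl (P.pt d) else Sum.inr d
  have hU : ∀ d, P.Used d → pt' d = Sum.inl (P.pt d) := fun d hd => if_pos hd
  have hN : ∀ d, ¬ P.Used d → pt' d = Sum.inr d := fun d hd => if_neg hd
  have hfixc : ∀ d d', ¬ P.Used d → (σ'.SameCycle d d' ↔ d = d') := by
    intro d d' hd
    constructor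
    · intro h
      obtain ⟨n, hn⟩ := h.exists_nat_pow_eq
      rw [← hn, Equiv.Perm.pow_apply_eq_self_of_apply_eq_self (hfix d hd)]
    · rintro rfl; exact SameCycle.refl _ _
  have hrU : ∀ f, ∀ d ∈ P.route f, P.Used d := fun f d hd => ⟨f, Or.inl hd⟩
  let P' : PreDrawing src tgt :=
    { D := P.D
      X := P.X ⊕ P.D
      finD := P.finD
      finX := inferInstance
      σ := σ'
      α := P.α
      α_invol := P.α_invol
      α_ne := P.α_ne
      planar := hp
      pt := pt'
      pt_iff := by
        intro d d'
        by_cases h1 : P.Used d <;> by_cases h2 : P.Used d'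
        · rw [hU _ h1, hU _ h2, hsame _ _ h1 h2, Sum.inl.injEq, P.pt_iff]
        · rw [hU _ h1, hN _ h2]
          constructor
          · intro h; exact absurd h (by simp)
          · intro h
            exact absurd ((hfixc d' d h2).1 h.symm ▸ h1) h2
        · rw [hN _ h1, hU _ h2]
          constructor
          · intro h; exact absurd h (by simp)
          · intro h
            exact absurd ((hfixc d d' h1).1 h ▸ h2) h1
        · rw [hN _ h1, hN _ h2, Sum.inr.injEq, hfixc d d' h1]
      loc := fun v => Sum.inl (P.loc v)
      loc_inj := fun v w h => P.loc_inj (Sum.inl.inj h)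
      route := P.route
      route_walk := by
        intro f
        refine isWalk_of_local ?_ ?_ ?_ ?_
        · intro h
          have := P.route_walk f
          rw [h] at this
          exact congrArg Sum.inl this
        · intro d t h
          have h0 := P.route_walk f
          rw [h] at h0
          rw [hU _ (hrU f d (by rw [h]; simp)), h0.1]
        · intro s d h
          have h0 := P.route_walk f
          rw [h] at h0
          rw [hU _ (P.used_alpha.2 (hrU f d (by rw [h]; simp))), h0.last]
        · intro s c b t h
          have h0 := P.route_walk f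
          rw [h] at h0
          rw [hU _ (P.used_alpha.2 (hrU f c (by rw [h]; simp))),
            hU _ (hrU f b (by rw [h]; simp)), h0.consec]
      route_inner := by
        intro f d hd v h
        rw [hU _ (hrU f d (List.mem_of_mem_tail hd))] at h
        exact P.route_inner f d hd v (Sum.inl.inj h)
      route_use := P.route_use }
  have husedP' : ∀ d, P'.Used d ↔ P.Used d := fun d => Iff.rfl
  refine ⟨P', ?_, Equiv.refl _, Sum.inl, Sum.inl_injective, fun _ => rfl, fun e => ?_, ?_, ?_, ?_⟩
  · intro d d' hdd hd
    have h1 : pt' d = pt' d' := hdd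
    change P.Used d'
    by_contra h2
    rw [hU d hd, hN d' h2] at h1
    exact absurd h1 (by simp)
  · exact List.map_id _
  · intro d hd
    exact hU d hd
  · intro x
    rw [P.passes_eq_of x (fun d => P.pt d = x) fun _ _ _ => Iff.rfl]
    refine P'.passes_eq_of _ (fun d => P.pt d = x) fun f d hd => ?_
    have h1 : P'.pt d = Sum.inl (P.pt d) := hU d (hrU f d (List.mem_of_mem_tail hd))
    rw [h1]
    exact Sum.inl_injective.eq_iff
  · intro x hx
    rw [P'.passes_eq_of x (fun _ => False) fun f d hd => ?_]
    · simp
    · have h1 : P'.pt d = Sum.inl (P.pt d) := hU d (hrU f d (List.mem_of_mem_tail hd))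
      constructor
      · intro h
        exact hx ⟨P.pt d, h1.symm.trans h⟩
      · exact fun h => h.elim

lemma sum_count_filter {A B : Type} [Fintype A] [DecidableEq A] [DecidableEq B] (f : A → B)
    (b : B) (l : List A) :
    ∑ a ∈ Finset.univ.filter (fun a => f a = b), l.count a = (l.map f).count b := by
  induction l with
  | nil => simp
  | cons c l ih =>
    rw [List.map_cons, List.count_cons, ← ih]
    simp only [List.count_cons]
    rw [Finset.sum_add_distrib]
    congr 1
    by_cases h : f c = b
    · have h1 : ∑ a ∈ Finset.univ.filter (fun a => f a = b), (if (c == a) = true then 1 else 0)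
          = 1 := by
        rw [Finset.sum_eq_single c]
        · simp
        · intro a _ hac
          simp [Ne.symm hac]
        · intro hc
          exact absurd h (by simpa using hc)
      rw [h1]; simp [h]
    · have h1 : ∑ a ∈ Finset.univ.filter (fun a => f a = b), (if (c == a) = true then 1 else 0)
          = 0 := by
        refine Finset.sum_eq_zero fun a ha => ?_
        have h2 := (Finset.mem_filter.1 ha).2
        have : c ≠ a := fun hca => h (hca ▸ h2)
        simp [this]
      rw [h1]; simp [h]

open Classical in
/-- M4b: at a point which is not a vertex, the number of used darts is twice the number of passes. -/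
theorem card_used (P : PreDrawing src tgt) (x : P.X) (hx : ∀ v, x ≠ P.loc v) :
    Nat.card {d : P.D // P.pt d = x ∧ P.Used d} = 2 * P.passes x := by
  classical
  -- each route
  have hout : ∀ e, ((P.route e).map P.pt).count x = ((P.route e).tail.map P.pt).count x := by
    intro e
    cases hr : P.route e with
    | nil => simp
    | cons d l =>
      have h0 := P.route_walk e
      rw [hr] at h0
      have h1 : P.pt d = P.loc (src e) := h0.1
      rw [List.map_cons, List.tail_cons, List.count_cons_of_ne]
      rw [h1]
      exact (hx _).symm
  have hin : ∀ e, ((P.route e).map (fun d => P.pt (P.α d))).count x =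
      ((P.route e).map P.pt).count x := by
    intro e
    have h0 := isWalk_iff_list.1 (P.route_walk e)
    have h1 := congrArg (List.count x) h0
    rw [List.count_append, List.count_cons_of_ne (hx (src e)).symm, List.count_singleton] at h1
    have h2 : (P.loc (tgt e) == x) = false := by
      simpa using (hx (tgt e)).symm
    rw [h2] at h1
    simp at h1
    exact h1.symm
  -- used darts
  have hused : ∀ d, (if P.Used d then 1 else 0) =
      ∑ e, ((P.route e).count d + (P.route e).count (P.α d)) := by
    intro d
    have h1 := P.route_use d
    have h1' : ∑ e, ((P.route e).count d + (P.route e).count (P.α d)) ≤ 1 :=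
      le_trans (le_of_eq (by congr)) h1
    split_ifs with h
    · obtain ⟨e, he⟩ := h
      have h2 : 1 ≤ (P.route e).count d + (P.route e).count (P.α d) := by
        rcases he with he | he
        · have := List.count_pos_iff.2 he; omega
        · have := List.count_pos_iff.2 he; omega
      have h3 := Finset.single_le_sum (f := fun e => ((P.route e).count d +
        (P.route e).count (P.α d))) (fun _ _ => Nat.zero_le _) (Finset.mem_univ e)
      omega
    · symm
      refine Finset.sum_eq_zero fun e _ => ?_
      have h2 : (P.route e).count d = 0 := List.count_eq_zero.2 fun hd => h ⟨e, Or.inl hd⟩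
      have h3 : (P.route e).count (P.α d) = 0 := List.count_eq_zero.2 fun hd => h ⟨e, Or.inr hd⟩
      omega
  have hcard : Nat.card {d : P.D // P.pt d = x ∧ P.Used d} =
      ∑ d ∈ Finset.univ.filter (fun d => P.pt d = x), (if P.Used d then 1 else 0) := by
    rw [Nat.card_eq_fintype_card, Fintype.card_subtype, ← Finset.filter_filter,
      Finset.card_filter]
  rw [hcard, Finset.sum_congr rfl fun d _ => hused d, Finset.sum_comm]
  unfold passes
  rw [Finset.mul_sum]
  refine Finset.sum_congr rfl fun e _ => ?_
  rw [Finset.sum_add_distrib]
  have h1 : ∑ d ∈ Finset.univ.filter (fun d => P.pt d = x), (P.route e).count d =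
      ((P.route e).map P.pt).count x := by
    convert sum_count_filter P.pt x (P.route e) using 2
  have h2 : ∑ d ∈ Finset.univ.filter (fun d => P.pt d = x), (P.route e).count (P.α d) =
      ((P.route e).map (fun d => P.pt (P.α d))).count x := by
    have h3 : ∑ d ∈ Finset.univ.filter (fun d => P.pt d = x), (P.route e).count (P.α d) =
        ∑ d ∈ Finset.univ.filter (fun d => P.pt (P.α d) = x), (P.route e).count d := by
      refine Finset.sum_bij (fun d _ => P.α d) ?_ ?_ ?_ ?_
      · intro d hd
        rw [Finset.mem_filter] at hd ⊢
        rw [P.α_invol]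
        exact ⟨Finset.mem_univ _, hd.2⟩
      · intro d _ d' _ h
        exact P.α.injective h
      · intro d hd
        refine ⟨P.α d, ?_, P.α_invol d⟩
        rw [Finset.mem_filter] at hd ⊢
        exact ⟨Finset.mem_univ _, hd.2⟩
      · intro d _; rfl
    rw [h3]
    convert sum_count_filter (fun d => P.pt (P.α d)) x (P.route e) using 2
  rw [h1, h2, hin, hout]
  omega

end PreDrawing

end Helper5.CR
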