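import Pool.Agent.Helper5.CR.M2

/-!
# M5 of `MP_79ec0d_co`: splitting off a pass, and lemmas on walks
-/

open Equiv Equiv.Perm

namespace Helper5.CR

/-- A walk, read as an equality of two lists of points. -/
lemma isWalk_iff_list {D X : Type} {pt : D → X} {α : Perm D} {x y : X} {l : List D} :
    IsWalk pt α x y l ↔ l.map pt ++ [y] = x :: l.map (fun d => pt (α d)) := by
  induction l generalizing x with
  | nil => simp [IsWalk, eq_comm]
  | cons d l ih =>
    simp only [IsWalk, ih, List.map_cons, List.cons_append, List.cons.injEq]

/-- consecutive darts of a walk meet at a point -/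
lemma IsWalk.consec {D X : Type} {pt : D → X} {α : Perm D} {x y : X} {l₁ l₂ : List D} {c b : D}
    (h : IsWalk pt α x y (l₁ ++ c :: b :: l₂)) : pt b = pt (α c) := by
  induction l₁ generalizing x with
  | nil => exact h.2.1
  | cons d l ih => exact ih h.2

/-- construction of a walk from local conditions -/
lemma isWalk_of_local {D X : Type} {pt : D → X} {α : Perm D} : ∀ {l : List D} {x y : X},
    (l = [] → x = y) → (∀ d t, l = d :: t → pt d = x) → (∀ s d, l = s ++ [d] → pt (α d) = y) →
    (∀ s c b t, l = s ++ c :: b :: t → pt b = pt (α c)) → IsWalk pt α x y l := by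
  intro l
  induction l with
  | nil => intro x y h _ _ _; exact h rfl
  | cons d l ih =>
    intro x y _ h2 h3 h4
    refine ⟨h2 d l rfl, ih ?_ ?_ ?_ ?_⟩
    · intro h; exact h3 [] d (by rw [h]; rfl)
    · intro b t h; exact h4 [] d b t (by rw [h]; rfl)
    · intro s b h; exact h3 (d :: s) b (by rw [h]; rfl)
    · intro s c b t h; exact h4 (d :: s) c b t (by rw [h]; rfl)

lemma IsWalk.last {D X : Type} {pt : D → X} {α : Perm D} {x y : X} {s : List D} {d : D}
    (h : IsWalk pt α x y (s ++ [d])) : pt (α d) = y := by
  induction s generalizing x with
  | nil => exact h.2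
  | cons c l ih => exact ih h.2

section perm

variable {D : Type} [Fintype D] [DecidableEq D]

lemma split_sameCycle {σ : Perm D} {x y : D} (hxy : σ x = y) (hne : x ≠ y) (hyx : σ y ≠ x)
    (d d' : D) : (σ * swap (σ⁻¹ x) y).SameCycle d d' ↔
      ((d = x ∨ d = y) ∧ (d' = x ∨ d' = y)) ∨
      (¬ (d = x ∨ d = y) ∧ ¬ (d' = x ∨ d' = y) ∧ σ.SameCycle d d') := by
  set u := σ⁻¹ x with hu
  have hux : σ u = x := by simp [hu]
  have huy : u ≠ y := by
    intro h; rw [h] at hux; exact hyx hux
  have hxu : x ≠ u := by
    intro h
    rw [← h] at hux
    exact hne (hux.symm.trans hxy)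
  set τ := σ * swap u y with hτ
  have hsc : σ.SameCycle u y := ⟨2, by
    rw [zpow_two, Equiv.Perm.mul_apply, hux, hxy]⟩
  have hnot : ¬ τ.SameCycle u y := not_sameCycle_mul_swap huy hsc
  have hback : τ * swap u y = σ := by
    rw [hτ, mul_assoc, Equiv.swap_mul_self, mul_one]
  have hτy : τ y = x := by rw [hτ, Equiv.Perm.mul_apply, Equiv.swap_apply_right, hux]
  have hτx : τ x = y := by
    rw [hτ, Equiv.Perm.mul_apply, Equiv.swap_apply_of_ne_of_ne hxu hne, hxy]
  have hy : ∀ e, τ.SameCycle e y ↔ (e = x ∨ e = y) := by
    intro e
    constructor
    · intro h
      obtain ⟨n, -, -, hn⟩ := h.symm.exists_pow_eq''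
      have key : ∀ n : ℕ, (τ ^ n) y = x ∨ (τ ^ n) y = y := by
        intro n
        induction n with
        | zero => right; simp
        | succ n ih =>
          rw [pow_succ', Equiv.Perm.mul_apply]
          rcases ih with h | h
          · rw [h, hτx]; exact Or.inr rfl
          · rw [h, hτy]; exact Or.inl rfl
      rw [← hn]
      exact key n
    · rintro (h | h)
      · rw [h]; exact ⟨1, by simpa using hτx⟩
      · rw [h]
  have hmain : ∀ e e', σ.SameCycle e e' ↔ τ.SameCycle e e' ∨
      (τ.SameCycle e u ∧ τ.SameCycle e' y) ∨ (τ.SameCycle e y ∧ τ.SameCycle e' u) := by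
    intro e e'
    conv_lhs => rw [← hback]
    exact sameCycle_mul_swap hnot e e'
  by_cases h1 : d = x ∨ d = y <;> by_cases h2 : d' = x ∨ d' = y
  · simp only [h1, h2, true_and, not_true_eq_false, false_and, or_false, iff_true]
    exact ((hy d).2 h1).trans ((hy d').2 h2).symm
  · simp only [h1, h2, and_false, not_true_eq_false, false_and, or_self, iff_false]
    intro h
    exact h2 ((hy d').1 (h.symm.trans ((hy d).2 h1)))
  · simp only [h1, h2, false_and, not_true_eq_false, and_false, or_self, iff_false]
    intro h
    exact h1 ((hy d).1 (h.trans ((hy d').2 h2)))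
  · simp only [h1, h2, false_and, not_false_eq_true, true_and, false_or]
    rw [hmain]
    constructor
    · exact fun h => Or.inl h
    · rintro (h | ⟨-, h⟩ | ⟨h, -⟩)
      · exact h
      · exact absurd ((hy d').1 h) h2
      · exact absurd ((hy d).1 h) h1

end perm

variable {V E : Type} [Fintype E] {src tgt : E → V}

namespace PreDrawing

open Classical in
/-- the data of a pass `c, b` of the edge `e` -/
lemma pass_counts (P : PreDrawing src tgt) (e : E) (l₁ l₂ : List P.D) (c b : P.D)
    (hr : P.route e = l₁ ++ c :: b :: l₂) :
    (∀ f, (P.route f).count (P.α c) = 0) ∧ (∀ f, (P.route f).count (P.α b) = 0) ∧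
    (∀ f, f ≠ e → (P.route f).count b = 0 ∧ (P.route f).count c = 0) ∧
    (P.route e).count b = 1 ∧ (P.route e).count c = 1 ∧ (P.route e).tail.count b = 1 ∧ c ≠ b := by
  have hb : 0 < (P.route e).count b := List.count_pos_iff.2 (by rw [hr]; simp)
  have hc : 0 < (P.route e).count c := List.count_pos_iff.2 (by rw [hr]; simp)
  have key : ∀ d, 0 < (P.route e).count d → (∀ f, (P.route f).count (P.α d) = 0) ∧
      (∀ f, f ≠ e → (P.route f).count d = 0) ∧ (P.route e).count d = 1 := by
    intro d hd
    have h1 := P.route_use d
    have h2 : ∀ f, f ≠ e → ((P.route e).count d + (P.route e).count (P.α d)) +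
        ((P.route f).count d + (P.route f).count (P.α d)) ≤ 1 := by
      intro f hf
      refine le_trans ?_ h1
      have := Finset.sum_le_sum_of_subset (f := fun e => ((P.route e).count d +
        (P.route e).count (P.α d))) (Finset.subset_univ {e, f})
      rw [Finset.sum_pair (Ne.symm hf)] at this
      exact this.trans (le_of_eq (by congr))
    have h3 : (P.route e).count d + (P.route e).count (P.α d) ≤ 1 := by
      refine le_trans ?_ h1
      have := Finset.single_le_sum (f := fun e => ((P.route e).count d +
        (P.route e).count (P.α d))) (fun _ _ => Nat.zero_le _) (Finset.mem_univ e)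
      exact this.trans (le_of_eq (by congr))
    refine ⟨fun f => ?_, fun f hf => ?_, by omega⟩
    · by_cases hf : f = e
      · subst hf; omega
      · have := h2 f hf; omega
    · have := h2 f hf; omega
  obtain ⟨kb1, kb2, kb3⟩ := key b hb
  obtain ⟨kc1, kc2, kc3⟩ := key c hc
  have hcb : c ≠ b := by
    intro h
    rw [← h, hr, List.count_append, List.count_cons_self, h, List.count_cons_self] at kb3
    omega
  refine ⟨kc1, kb1, fun f hf => ⟨kb2 f hf, kc2 f hf⟩, kb3, kc3, ?_, hcb⟩
  rw [hr] at kb3 ⊢
  cases l₁ with
  | nil =>
    simp only [List.nil_append, List.tail_cons] at kb3 ⊢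
    rw [List.count_cons_of_ne hcb] at kb3
    exact kb3
  | cons d l =>
    simp only [List.cons_append, List.tail_cons] at kb3 ⊢
    have h1 : 0 < (l ++ c :: b :: l₂).count b := List.count_pos_iff.2 (by simp)
    rw [List.count_cons] at kb3
    omega

open Classical in
/-- the number of passes at a point, dart by dart -/
lemma passes_eq_countP (P : PreDrawing src tgt) (x : P.X) :
    P.passes x = ∑ e, (P.route e).tail.countP (fun d => decide (P.pt d = x)) := by
  unfold passes
  refine Finset.sum_congr rfl fun e _ => ?_
  rw [List.count, List.countP_map]
  refine List.countP_congr fun d _ => ?_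
  simp

/-- the number of passes at a point, with a predicate on darts -/
lemma passes_eq_of (P : PreDrawing src tgt) (x : P.X) (q : P.D → Prop) [DecidablePred q]
    (h : ∀ e, ∀ d ∈ (P.route e).tail, (P.pt d = x ↔ q d)) :
    P.passes x = ∑ e, (P.route e).tail.countP (fun d => decide (q d)) := by
  classical
  unfold passes
  refine Finset.sum_congr rfl fun e _ => ?_
  rw [List.count, List.countP_map]
  refine List.countP_congr fun d hd => ?_
  have := h e d hd
  simp [this]

open Classical in
/-- **M5.** Splitting off a pass whose two darts are adjacent. -/
theorem exists_split (P : PreDrawing src tgt) (e : E) (l₁ l₂ : List P.D) (c b : P.D)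
    (hr : P.route e = l₁ ++ c :: b :: l₂) (hab : P.σ (P.α c) = b ∨ P.σ b = P.α c) :
    ∃ P' : PreDrawing src tgt, (P.Clean → P'.Clean) ∧
      ((∀ d, P.Used d → P.pt d ≠ P.pt (P.α d)) → (∀ d, P'.Used d → P'.pt d ≠ P'.pt (P'.α d))) ∧
      ∀ g : ℕ → ℕ, g 0 = 0 → P'.cost g + g (P.passes (P.pt b)) =
        P.cost g + g (P.passes (P.pt b) - 1) + g 1 := by
  classical
  obtain ⟨ha0, hab0, hother, hb1, hc1, hbt, hcb⟩ := P.pass_counts e l₁ l₂ c b hr
  have hwalk := P.route_walk e
  rw [hr] at hwalk
  have hpt : P.pt b = P.pt (P.α c) := hwalk.consec
  set a := P.α c with ha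
  have hαa : P.α a = c := by rw [ha, P.α_invol]
  have hbtail : b ∈ (P.route e).tail := List.count_pos_iff.1 (by omega)
  have hloc : ∀ v, P.pt b ≠ P.loc v := P.route_inner e b hbtail
  have hane : a ≠ b := by
    intro h
    have := ha0 e
    rw [h, hb1] at this
    omega
  -- counts in the tails
  have hbtail0 : ∀ f, f ≠ e → (P.route f).tail.count b = 0 := by
    intro f hf
    have h1 := (hother f hf).1
    have h2 : (P.route f).tail.count b ≤ (P.route f).count b :=
      (List.tail_sublist _).count_le _
    omega
  have hatail0 : ∀ f, (P.route f).tail.count a = 0 := by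
    intro f
    have h1 := ha0 f
    have h2 : (P.route f).tail.count a ≤ (P.route f).count a :=
      (List.tail_sublist _).count_le _
    omega
  let T : P.D → Prop := fun d => d = a ∨ d = b
  have hT : ∀ f, (P.route f).tail.countP (fun d => decide (T d)) = if f = e then 1 else 0 := by
    intro f
    have h1 : (P.route f).tail.countP (fun d => decide (T d)) =
        (P.route f).tail.count a + (P.route f).tail.count b := by
      generalize (P.route f).tail = l
      induction l with
      | nil => simp
      | cons d l ih =>
        rw [List.countP_cons, List.count_cons, List.count_cons, ih]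
        by_cases h1 : d = a
        · have h2 : d ≠ b := fun h => hane (h1.symm.trans h)
          simp [T, h1, hane, hane.symm]; omega
        · by_cases h2 : d = b
          · simp [T, h1, h2, hane.symm]; omega
          · simp [T, h1, h2]
    rw [h1, hatail0]
    split_ifs with h
    · subst h; rw [hbt]
    · rw [hbtail0 f h]
  have hTz : ∀ d, T d → P.pt d = P.pt b := by
    rintro d (h | h)
    · rw [h, hpt]
    · rw [h]
  -- passes through the point of `b`
  have hsplitcount : ∀ x : P.X, P.passes x =
      (∑ f, (P.route f).tail.countP (fun d => decide (¬ T d ∧ P.pt d = x))) +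
        (if x = P.pt b then 1 else 0) := by
    intro x
    rw [P.passes_eq_countP]
    have h1 : ∀ l : List P.D, l.countP (fun d => decide (P.pt d = x)) =
        l.countP (fun d => decide (¬ T d ∧ P.pt d = x)) +
        (if x = P.pt b then l.countP (fun d => decide (T d)) else 0) := by
      intro l
      induction l with
      | nil => simp
      | cons d l ih =>
        rw [List.countP_cons, List.countP_cons, List.countP_cons, ih]
        by_cases hd : T d
        · have h2 := hTz d hd
          by_cases hx : x = P.pt b
          · simp [hd, h2, hx]; omega
          · simp [hd, h2, hx, Ne.symm hx]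
        · by_cases hx : x = P.pt b
          · by_cases hdx : P.pt d = x
            · simp [hd, hdx, hx]; omega
            · simp [hd, hdx, hx]
              rw [hx] at hdx
              simp [hdx]
          · simp [hd, hx]
    rw [Finset.sum_congr rfl fun f _ => h1 _, Finset.sum_add_distrib]
    congr 1
    by_cases hx : x = P.pt b
    · simp only [hx, if_true]
      rw [Finset.sum_congr rfl fun f _ => hT f]
      simp
    · simp [hx]
  -- the two darts in the order of the rotation
  obtain ⟨x₀, y₀, hxy, hne, hset⟩ : ∃ x₀ y₀ : P.D, P.σ x₀ = y₀ ∧ x₀ ≠ y₀ ∧
      ∀ d, T d ↔ (d = x₀ ∨ d = y₀) := by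
    rcases hab with h | h
    · exact ⟨a, b, h, hane, fun d => Iff.rfl⟩
    · exact ⟨b, a, h, hane.symm, fun d => Or.comm⟩
  by_cases hyx : P.σ y₀ = x₀
  · -- the point carries only this pass
    refine ⟨P, id, id, fun g hg => ?_⟩
    have hcyc : ∀ d, P.pt d = P.pt b → T d := by
      intro d hd
      have hsame : P.σ.SameCycle b d := (P.pt_iff b d).1 hd.symm
      obtain ⟨n, hn⟩ := hsame.exists_nat_pow_eq
      have key : ∀ n : ℕ, T ((P.σ ^ n) b) := by
        intro n
        induction n with
        | zero => exact Or.inr (by simp)
        | succ n ih =>
          rw [pow_succ', Equiv.Perm.mul_apply]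
          rcases (hset _).1 ih with h | h
          · rw [h, hxy]; exact (hset _).2 (Or.inr rfl)
          · rw [h, hyx]; exact (hset _).2 (Or.inl rfl)
      rw [← hn]; exact key n
    have h1 : P.passes (P.pt b) = 1 := by
      rw [hsplitcount]
      have : ∀ f, (P.route f).tail.countP (fun d => decide (¬ T d ∧ P.pt d = P.pt b)) = 0 := by
        intro f
        rw [List.countP_eq_zero]
        intro d _
        simp only [decide_eq_true_eq, not_and]
        exact fun hd hd' => hd (hcyc d hd')
      rw [Finset.sum_eq_zero fun f _ => this f, if_pos rfl]
    rw [h1]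
    simp [hg]
  -- the new map
  have hxσ : P.σ⁻¹ x₀ ≠ y₀ := by
    intro h
    apply hyx
    rw [← h]
    simp
  have hsc : P.σ.SameCycle (P.σ⁻¹ x₀) y₀ := ⟨2, by
    rw [zpow_two, Equiv.Perm.mul_apply]; simp [hxy]⟩
  have hplanar : Planar (P.σ * swap (P.σ⁻¹ x₀) y₀) P.α := P.planar.split hxσ hsc
  have hsame := split_sameCycle hxy hne hyx
  have hsame' : ∀ d d', (P.σ * swap (P.σ⁻¹ x₀) y₀).SameCycle d d' ↔
      (T d ∧ T d') ∨ (¬ T d ∧ ¬ T d' ∧ P.σ.SameCycle d d') := by
    intro d d'
    rw [hsame, ← hset, ← hset]
  let pt' : P.D → Option P.X := fun d => if T d then none else some (P.pt d)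
  have hpt'T : ∀ d, T d → pt' d = none := fun d hd => if_pos hd
  have hpt'n : ∀ d, ¬ T d → pt' d = some (P.pt d) := fun d hd => if_neg hd
  have hconsec : ∀ f s c' b' t, P.route f = s ++ c' :: b' :: t → pt' b' = pt' (P.α c') := by
    intro f s c' b' t hf
    have hwf := P.route_walk f
    rw [hf] at hwf
    have hq : P.pt b' = P.pt (P.α c') := hwf.consec
    obtain ⟨ga0, gb0, gother, gb1, gc1, gbt, gcb⟩ := P.pass_counts f s t c' b' hf
    by_cases h1 : T b' <;> by_cases h2 : T (P.α c')
    · rw [hpt'T _ h1, hpt'T _ h2]
    · exfalso
      -- b' = b (not a), hence f = e and c' = c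
      rcases h1 with h1 | h1
      · rw [h1] at gb1
        have := ha0 f
        omega
      · rw [h1] at gb1
        have hfe : f = e := by
          by_contra hfe
          have := (hother f hfe).1
          omega
        subst hfe
        have hc' : c' = c := by
          have e1 : s ++ c' :: b' :: t = l₁ ++ c :: b :: l₂ := hf.symm.trans hr
          have hnd : ∀ (s l₁ : List P.D) (t l₂ : List P.D) (c' c : P.D),
              s ++ c' :: b :: t = l₁ ++ c :: b :: l₂ → (s ++ c' :: b :: t).count b = 1 → c' = c := by
            intro s
            induction s with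
            | nil =>
              intro l₁ t l₂ c' c h hcount
              cases l₁ with
              | nil => simp at h; exact h.1
              | cons d l =>
                simp only [List.nil_append, List.cons_append, List.cons.injEq] at h
                rw [List.nil_append] at hcount
                cases l with
                | nil =>
                  simp only [List.nil_append, List.cons.injEq] at h
                  obtain ⟨h1, h2, h3⟩ := h
                  rw [h3, List.count_cons, List.count_cons_self, List.count_cons_self] at hcount
                  omega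
                | cons d2 l =>
                  simp only [List.cons_append, List.cons.injEq] at h
                  obtain ⟨h1, h2, h3⟩ := h
                  rw [h3, List.count_cons, List.count_cons_self, List.count_append,
                    List.count_cons, List.count_cons_self] at hcount
                  omega
            | cons d s ih =>
              intro l₁ t l₂ c' c h hcount
              cases l₁ with
              | nil =>
                simp only [List.nil_append, List.cons_append, List.cons.injEq] at h
                obtain ⟨h1, h2⟩ := h
                cases s with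
                | nil =>
                  simp only [List.nil_append, List.cons.injEq] at h2
                  obtain ⟨h3, h4⟩ := h2
                  rw [h3] at hcount
                  simp only [List.cons_append, List.nil_append, List.count_cons,
                    List.count_cons_self] at hcount
                  simp at hcount
                  omega
                | cons d2 s =>
                  simp only [List.cons_append, List.cons.injEq] at h2
                  obtain ⟨h3, h4⟩ := h2
                  rw [h3] at hcount
                  simp only [List.cons_append, List.count_cons, List.count_append,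
                    List.count_cons_self] at hcount
                  simp at hcount
                  omega
              | cons d' l =>
                simp only [List.cons_append, List.cons.injEq] at h
                obtain ⟨h1, h2⟩ := h
                rw [List.cons_append, List.count_cons] at hcount
                refine ih l t l₂ c' c h2 ?_
                have h3 : 0 < (s ++ c' :: b :: t).count b := List.count_pos_iff.2 (by simp)
                omega
          rw [h1] at e1
          refine hnd s l₁ t l₂ c' c e1 ?_
          rw [e1, ← hr]
          exact hb1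
        exact h2 (Or.inl (by rw [hc', ha]))
    · exfalso
      rcases h2 with h2 | h2
      · -- α c' = a, so c' = c
        have hc' : c' = c := by
          rw [← hαa, ← h2, P.α_invol]
        rw [hc'] at gc1 hf
        have hfe : f = e := by
          by_contra hfe
          have := (hother f hfe).2
          omega
        subst hfe
        have e1 : s ++ c :: b' :: t = l₁ ++ c :: b :: l₂ := hf.symm.trans hr
        have hnd : ∀ (s l₁ : List P.D) (t l₂ : List P.D) (b' b : P.D),
            s ++ c :: b' :: t = l₁ ++ c :: b :: l₂ → (s ++ c :: b' :: t).count c = 1 →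
              b' = b := by
          intro s
          induction s with
          | nil =>
            intro l₁ t l₂ b' b h hcount
            cases l₁ with
            | nil => simp at h; exact h.1
            | cons d l =>
              simp only [List.nil_append, List.cons_append, List.cons.injEq] at h
              rw [List.nil_append] at hcount
              rw [h.2, List.count_cons_self, List.count_append, List.count_cons_self] at hcount
              omega
          | cons d s ih =>
            intro l₁ t l₂ b' b h hcount
            cases l₁ with
            | nil =>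
              simp only [List.nil_append, List.cons_append, List.cons.injEq] at h
              rw [h.1] at hcount
              rw [List.cons_append, List.count_cons_self, List.count_append,
                List.count_cons_self] at hcount
              omega
            | cons d' l =>
              simp only [List.cons_append, List.cons.injEq] at h
              obtain ⟨h1, h2⟩ := h
              rw [List.cons_append, List.count_cons] at hcount
              refine ih l t l₂ b' b h2 ?_
              have h3 : 0 < (s ++ c :: b' :: t).count c := List.count_pos_iff.2 (by simp)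
              omega
        have hb' : b' = b := hnd s l₁ t l₂ b' b e1 (by rw [e1, ← hr]; exact hc1)
        exact h1 (Or.inr hb')
      · -- α c' = b, so c' = α b
        have hc' : c' = P.α b := by rw [← h2, P.α_invol]
        rw [hc'] at gc1
        have := hab0 f
        omega
    · rw [hpt'n _ h1, hpt'n _ h2, hq]
  let P' : PreDrawing src tgt :=
    { D := P.D
      X := Option P.X
      finD := P.finD
      finX := inferInstance
      σ := P.σ * swap (P.σ⁻¹ x₀) y₀
      α := P.α
      α_invol := P.α_invol
      α_ne := P.α_ne
      planar := hplanar
      pt := pt'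
      pt_iff := by
        intro d d'
        rw [hsame']
        by_cases h1 : T d <;> by_cases h2 : T d'
        · simp [hpt'T _ h1, hpt'T _ h2, h1, h2]
        · simp [hpt'T _ h1, hpt'n _ h2, h1, h2]
        · simp [hpt'n _ h1, hpt'T _ h2, h1, h2]
        · simp [hpt'n _ h1, hpt'n _ h2, h1, h2, P.pt_iff]
      loc := fun v => some (P.loc v)
      loc_inj := fun v w h => P.loc_inj (Option.some.inj h)
      route := P.route
      route_walk := by
        intro f
        refine isWalk_of_local ?_ ?_ ?_ (hconsec f)
        · intro h
          have := P.route_walk f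
          rw [h] at this
          exact congrArg some this
        · intro d t h
          have h0 := P.route_walk f
          rw [h] at h0
          have h1 : P.pt d = P.loc (src f) := h0.1
          have h2 : ¬ T d := fun hd => hloc (src f) ((hTz d hd).symm.trans h1)
          rw [hpt'n _ h2, h1]
        · intro s d h
          have h0 := P.route_walk f
          rw [h] at h0
          have h1 : P.pt (P.α d) = P.loc (tgt f) := h0.last
          have h2 : ¬ T (P.α d) := fun hd => hloc (tgt f) ((hTz _ hd).symm.trans h1)
          rw [hpt'n _ h2, h1]
      route_inner := by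
        intro f d hd v h
        by_cases h1 : T d
        · rw [hpt'T _ h1] at h; exact Option.some_ne_none _ h.symm
        · rw [hpt'n _ h1] at h
          exact P.route_inner f d hd v (Option.some.inj h)
      route_use := P.route_use }
  refine ⟨P', ?_, ?_, ?_⟩
  · -- clean
    intro hC d d' hdd hd
    have hUb : P.Used b := ⟨e, Or.inl (List.mem_of_mem_tail hbtail)⟩
    have hUa : P.Used a := ⟨e, Or.inr (by
      rw [hαa]; exact List.count_pos_iff.1 (by omega))⟩
    change P.Used d'
    have hdd' : pt' d = pt' d' := hdd
    by_cases h2 : T d'
    · rcases h2 with h2 | h2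
      · rw [h2]; exact hUa
      · rw [h2]; exact hUb
    · by_cases h1 : T d
      · rw [hpt'T _ h1, hpt'n _ h2] at hdd'
        exact absurd hdd'.symm (Option.some_ne_none _)
      · rw [hpt'n _ h1, hpt'n _ h2] at hdd'
        exact hC d d' (Option.some.inj hdd') hd
  · -- no loops
    intro hL d hd h
    have h' : pt' d = pt' (P.α d) := h
    by_cases h1 : T d <;> by_cases h2 : T (P.α d)
    · rcases h1 with h1 | h1 <;> rcases h2 with h2 | h2
      · rw [h1] at h2; exact P.α_ne a h2
      · rw [h1, hαa] at h2; exact hcb h2
      · rw [h1] at h2
        apply hcb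
        rw [← hαa, ← h2, P.α_invol]
      · rw [h1] at h2; exact P.α_ne b h2
    · rw [hpt'T _ h1, hpt'n _ h2] at h'
      exact Option.some_ne_none _ h'.symm
    · rw [hpt'n _ h1, hpt'T _ h2] at h'
      exact Option.some_ne_none _ h'
    · rw [hpt'n _ h1, hpt'n _ h2] at h'
      exact hL d hd (Option.some.inj h')
  · -- cost
    intro g hg
    have hnone : P'.passes (none : Option P.X) = 1 := by
      have h3 : ∑ f, (P.route f).tail.countP (fun d => decide (T d)) = 1 := by
        rw [Finset.sum_congr rfl fun f _ => hT f]
        simp
      rw [← h3]
      refine P'.passes_eq_of _ T fun f d _ => ?_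
      by_cases h1 : T d
      · exact ⟨fun _ => h1, fun _ => hpt'T _ h1⟩
      · exact ⟨fun h => absurd ((hpt'n _ h1).symm.trans h) (Option.some_ne_none _),
          fun h => absurd h h1⟩
    have hsome : ∀ x : P.X, P'.passes (some x : Option P.X) + (if x = P.pt b then 1 else 0) =
        P.passes x := by
      intro x
      rw [hsplitcount x]
      congr 1
      refine P'.passes_eq_of _ (fun d => ¬ T d ∧ P.pt d = x) fun f d _ => ?_
      by_cases h1 : T d
      · exact ⟨fun h => absurd ((hpt'T _ h1).symm.trans h).symm (Option.some_ne_none _),
          fun h => absurd h1 h.1⟩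
      · exact ⟨fun h => ⟨h1, Option.some.inj ((hpt'n _ h1).symm.trans h)⟩,
          fun h => (hpt'n _ h1).trans (congrArg some h.2)⟩
    have hcost : P'.cost g = g 1 + ∑ x : P.X, g (P'.passes (some x : Option P.X)) := by
      unfold cost
      have h0 := Fintype.sum_option (fun x : Option P.X => g (P'.passes x))
      rw [hnone] at h0
      rw [← h0]
    rw [hcost]
    unfold cost
    have h2 : ∑ x : P.X, g (P'.passes (some x : Option P.X)) + g (P.passes (P.pt b)) =
        ∑ x : P.X, g (P.passes x) + g (P.passes (P.pt b) - 1) := by
      rw [← Finset.add_sum_erase _ _ (Finset.mem_univ (P.pt b)),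
        ← Finset.add_sum_erase (Finset.univ : Finset P.X) (fun x => g (P.passes x))
          (Finset.mem_univ (P.pt b))]
      have h3 : ∑ x ∈ (Finset.univ : Finset P.X).erase (P.pt b),
          g (P'.passes (some x : Option P.X)) =
          ∑ x ∈ (Finset.univ : Finset P.X).erase (P.pt b), g (P.passes x) := by
        refine Finset.sum_congr rfl fun x hx => ?_
        have h4 := hsome x
        rw [if_neg (Finset.mem_erase.1 hx).1, Nat.add_zero] at h4
        rw [h4]
      have h5 : P'.passes (some (P.pt b) : Option P.X) = P.passes (P.pt b) - 1 := by
        have h4 := hsome (P.pt b)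
        rw [if_pos rfl] at h4
        omega
      rw [h3, h5]
      omega
    omega

end PreDrawing

end Helper5.CR
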