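import Pool.Agent.Helper5.CR.Defs

/-!
# M7 of `MP_79ec0d_co`: the resolution theorem

The modules M4a, M4b, M5 and M6 are taken as hypotheses.
-/

open Equiv Equiv.Perm

namespace Helper5.CR

variable {V E : Type} [Fintype E] {src tgt : E → V}

namespace PreDrawing

/-- M7: weights for the resolution theorem -/
def gr (n : ℕ) : ℕ := if n ≤ 1 then 0 else if n = 2 then 1 else n ^ 2

/-- Statement of M4a (cleaning). -/
def CleanStmt (src tgt : E → V) : Prop := ∀ P : PreDrawing src tgt,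
    ∃ P' : PreDrawing src tgt, P'.Clean ∧
      ∃ i : P'.D ≃ P.D, ∃ j : P.X → P'.X, Function.Injective j ∧
        (∀ d, i (P'.α d) = P.α (i d)) ∧ (∀ e, (P'.route e).map i = P.route e) ∧
        (∀ d, P'.Used d → P'.pt d = j (P.pt (i d))) ∧ (∀ x, P'.passes (j x) = P.passes x) ∧
        (∀ x, x ∉ Set.range j → P'.passes x = 0)

/-- Statement of M4b. -/
def CardUsedStmt (src tgt : E → V) : Prop := ∀ (P : PreDrawing src tgt) (x : P.X),
    (∀ v, x ≠ P.loc v) → Nat.card {d : P.D // P.pt d = x ∧ P.Used d} = 2 * P.passes x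

/-- Statement of M5. -/
def SplitStmt (src tgt : E → V) : Prop := ∀ (P : PreDrawing src tgt) (e : E)
    (l₁ l₂ : List P.D) (c b : P.D)
    (_ : P.route e = l₁ ++ c :: b :: l₂) (_ : P.σ (P.α c) = b ∨ P.σ b = P.α c),
    ∃ P' : PreDrawing src tgt, (P.Clean → P'.Clean) ∧
      ((∀ d, P.Used d → P.pt d ≠ P.pt (P.α d)) → (∀ d, P'.Used d → P'.pt d ≠ P'.pt (P'.α d))) ∧
      ∀ g : ℕ → ℕ, g 0 = 0 → P'.cost g + g (P.passes (P.pt b)) =
        P.cost g + g (P.passes (P.pt b) - 1) + g 1

/-- Statement of M6. -/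
def SwapStmt (src tgt : E → V) : Prop := ∀ (P : PreDrawing src tgt) (_ : P.Clean)
    (_ : ∀ d, P.Used d → P.pt d ≠ P.pt (P.α d)) (e : E) (l₁ l₂ : List P.D) (c b : P.D)
    (_ : P.route e = l₁ ++ c :: b :: l₂) (j : ℕ) (_ : (P.σ ^ (j + 2)) (P.α c) = b)
    (_ : ∀ i, 0 < i → i < j + 2 → (P.σ ^ i) (P.α c) ≠ b ∧ (P.σ ^ i) (P.α c) ≠ P.α c),
    ∃ P' : PreDrawing src tgt, P'.Clean ∧ (∀ d, P'.Used d → P'.pt d ≠ P'.pt (P'.α d)) ∧
      (∀ g : ℕ → ℕ, g 0 = 0 → P'.cost g = P.cost g + g 2) ∧
      ∃ (l₁' l₂' : List P'.D) (c' b' : P'.D), P'.route e = l₁' ++ c' :: b' :: l₂' ∧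
        P'.passes (P'.pt b') = P.passes (P.pt b) ∧ (P'.σ ^ (j + 1)) (P'.α c') = b' ∧
        (∀ i, 0 < i → i < j + 1 →
          (P'.σ ^ i) (P'.α c') ≠ b' ∧ (P'.σ ^ i) (P'.α c') ≠ P'.α c')

/-- consecutive darts of a walk meet at a point -/
lemma IsWalk_append_cons {D X : Type} {pt : D → X} {α : Perm D} :
    ∀ {x y : X} {l₁ l₂ : List D} {c b : D}, IsWalk pt α x y (l₁ ++ c :: b :: l₂) →
      pt b = pt (α c) := by
  intro x y l₁
  induction l₁ generalizing x with
  | nil =>
    intro l₂ c b h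
    exact h.2.1
  | cons d l ih =>
    intro l₂ c b h
    exact ih h.2

/-- the iteration of M6, closed by M5 -/
lemma iterate_swap (hsplit : SplitStmt src tgt) (hswap : SwapStmt src tgt) :
    ∀ (j : ℕ) (P : PreDrawing src tgt), P.Clean →
      (∀ d, P.Used d → P.pt d ≠ P.pt (P.α d)) → ∀ (e : E) (l₁ l₂ : List P.D) (c b : P.D),
      P.route e = l₁ ++ c :: b :: l₂ → (P.σ ^ (j + 1)) (P.α c) = b →
      (∀ i, 0 < i → i < j + 1 → (P.σ ^ i) (P.α c) ≠ b ∧ (P.σ ^ i) (P.α c) ≠ P.α c) →
      ∃ P' : PreDrawing src tgt, P'.Clean ∧ (∀ d, P'.Used d → P'.pt d ≠ P'.pt (P'.α d)) ∧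
        ∀ g : ℕ → ℕ, g 0 = 0 → P'.cost g + g (P.passes (P.pt b)) =
          P.cost g + g (P.passes (P.pt b) - 1) + g 1 + j * g 2 := by
  intro j
  induction j with
  | zero =>
    intro P hP hL e l₁ l₂ c b hr hb _
    obtain ⟨P', h1, h2, h3⟩ := hsplit P e l₁ l₂ c b hr (Or.inl (by simpa using hb))
    exact ⟨P', h1 hP, h2 hL, fun g hg => by rw [h3 g hg]; ring⟩
  | succ j ih =>
    intro P hP hL e l₁ l₂ c b hr hb hfirst
    obtain ⟨P₁, h1, h2, h3, l₁', l₂', c', b', h4, h5, h6, h7⟩ :=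
      hswap P hP hL e l₁ l₂ c b hr j hb hfirst
    obtain ⟨P₂, k1, k2, k3⟩ := ih P₁ h1 h2 e l₁' l₂' c' b' h4 h6 h7
    refine ⟨P₂, k1, k2, fun g hg => ?_⟩
    have := k3 g hg
    rw [h5, h3 g hg] at this
    rw [this]
    ring

/-- the auxiliary weight for the induction -/
def hw (n : ℕ) : ℕ := if 3 ≤ n then n else 0

lemma exists_pass (P : PreDrawing src tgt) (x : P.X) (hx : 0 < P.passes x) :
    ∃ (e : E) (l₁ l₂ : List P.D) (c b : P.D), P.route e = l₁ ++ c :: b :: l₂ ∧ P.pt b = x := by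
  classical
  unfold passes at hx
  obtain ⟨e, -, he⟩ := Finset.exists_ne_zero_of_sum_ne_zero hx.ne'
  have hmem : x ∈ (P.route e).tail.map P.pt := by
    by_contra hcon
    exact he (List.count_eq_zero.2 hcon)
  obtain ⟨b, hb, hbx⟩ := List.mem_map.1 hmem
  refine ⟨e, ?_⟩
  cases hr : P.route e with
  | nil => rw [hr] at hb; simp at hb
  | cons d l =>
    rw [hr] at hb
    simp only [List.tail_cons] at hb
    obtain ⟨s, t, hst⟩ := List.append_of_mem hb
    rcases List.eq_nil_or_concat s with hs | ⟨s', c, hs⟩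
    · refine ⟨[], t, d, b, ?_, hbx⟩
      rw [hst, hs]; rfl
    · refine ⟨d :: s', t, c, b, ?_, hbx⟩
      rw [hst, hs]; simp

lemma gr_step (r : ℕ) (hr : 3 ≤ r) : gr (r - 1) + (2 * r - 2) ≤ gr r := by
  obtain ⟨s, rfl⟩ : ∃ s, r = s + 3 := ⟨r - 3, by omega⟩
  unfold gr
  rw [if_neg (by omega : ¬ s + 3 - 1 ≤ 1), if_neg (by omega : ¬ s + 3 ≤ 1),
    if_neg (by omega : ¬ s + 3 = 2)]
  have h1 : s + 3 - 1 = s + 2 := by omega
  have h2 : 2 * (s + 3) - 2 = 2 * s + 4 := by omega
  rw [h1, h2]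
  split_ifs with h
  · have : s = 0 := by omega
    subst this; norm_num
  · nlinarith

/-- one step of the resolution -/
lemma exists_step (hcard : CardUsedStmt src tgt) (hsplit : SplitStmt src tgt)
    (hswap : SwapStmt src tgt) (P : PreDrawing src tgt) (hP : P.Clean)
    (hL : ∀ d, P.Used d → P.pt d ≠ P.pt (P.α d)) (x : P.X) (hx : 3 ≤ P.passes x) :
    ∃ P' : PreDrawing src tgt, P'.Clean ∧ (∀ d, P'.Used d → P'.pt d ≠ P'.pt (P'.α d)) ∧
      P'.cost gr ≤ P.cost gr ∧ P'.cost hw < P.cost hw := by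
  classical
  obtain ⟨e, l₁, l₂, c, b, hr, hbx⟩ := exists_pass P x (by omega)
  set a := P.α c with ha
  -- the point
  have hwalk := P.route_walk e
  rw [hr] at hwalk
  have hab : P.pt b = P.pt a := IsWalk_append_cons hwalk
  have hbr : b ∈ (P.route e).tail := by
    rw [hr]
    cases l₁ with
    | nil => simp
    | cons d l => simp
  have hloc : ∀ v, x ≠ P.loc v := fun v => hbx ▸ P.route_inner e b hbr v
  have hbU : P.Used b := ⟨e, Or.inl (List.mem_of_mem_tail hbr)⟩
  -- a ≠ b
  have hne : a ≠ b := by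
    intro h
    have h1 := P.route_use c
    have h2 : (P.route e).count c + (P.route e).count (P.α c) ≤
        ∑ e, ((P.route e).count c + (P.route e).count (P.α c)) :=
      Finset.single_le_sum (f := fun e => (P.route e).count c + (P.route e).count (P.α c))
        (fun _ _ => Nat.zero_le _) (Finset.mem_univ e)
    have hc : 0 < (P.route e).count c := List.count_pos_iff.2 (by rw [hr]; simp)
    have hc' : 0 < (P.route e).count (P.α c) := by
      rw [← ha, h]
      exact List.count_pos_iff.2 (by rw [hr]; simp)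
    have h3 := h2.trans (le_trans (le_of_eq (by congr)) h1)
    omega
  -- the period
  set N := Function.minimalPeriod P.σ a with hN
  have hNpos : 0 < N := by
    rw [hN]
    exact Function.minimalPeriod_pos_of_mem_periodicPts (by
      have := (P.σ).injective.mem_periodicPts (a)
      exact this)
  have hcardx : Nat.card {d : P.D // P.pt d = x} = 2 * P.passes x := by
    rw [← hcard P x hloc]
    refine Nat.card_congr (Equiv.subtypeEquivRight fun d => ?_)
    constructor
    · intro hd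
      exact ⟨hd, hP b d (hbx.trans hd.symm) hbU⟩
    · exact fun hd => hd.1
  have hpow : ∀ n : ℕ, P.pt ((P.σ ^ n) a) = x := by
    intro n
    rw [← hbx, hab]
    exact (P.pt_iff _ _).2 (Equiv.Perm.SameCycle.symm ⟨n, by simp⟩)
  have hiter : ∀ n : ℕ, (P.σ ^ n) a = P.σ^[n] a := by
    intro n
    rw [Equiv.Perm.iterate_eq_pow]
  have hNle : N ≤ 2 * P.passes x := by
    rw [← hcardx, Nat.card_eq_fintype_card]
    have : Function.Injective (fun i : Fin N =>
        (⟨(P.σ ^ (i : ℕ)) a, hpow i⟩ : {d : P.D // P.pt d = x})) := by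
      intro i j hij
      have h1 : (P.σ ^ (i : ℕ)) a = (P.σ ^ (j : ℕ)) a := congrArg Subtype.val hij
      rw [hiter, hiter] at h1
      exact Fin.ext (Function.iterate_injOn_Iio_minimalPeriod i.2 j.2 h1)
    simpa using Fintype.card_le_of_injective _ this
  -- the first time `b` is reached
  have hex : ∃ n : ℕ, 0 < n ∧ (P.σ ^ n) a = b := by
    have h1 : P.σ.SameCycle a b := (P.pt_iff a b).1 hab.symm
    obtain ⟨n, hn0, -, hn⟩ := h1.exists_pow_eq''
    exact ⟨n, hn0, hn⟩
  set k := Nat.find hex with hk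
  have hkspec : 0 < k ∧ (P.σ ^ k) a = b := Nat.find_spec hex
  have hkN : k < N := by
    have h1 : (P.σ ^ (k % N)) a = b := by
      rw [hiter, hN, Function.iterate_mod_minimalPeriod_eq, ← hiter]
      exact hkspec.2
    have h2 : 0 < k % N := by
      rcases Nat.eq_zero_or_pos (k % N) with h | h
      · rw [h] at h1
        exact absurd (by simpa using h1) hne
      · exact h
    have h3 : k ≤ k % N := Nat.find_min' hex ⟨h2, h1⟩
    exact lt_of_le_of_lt h3 (Nat.mod_lt _ hNpos)
  have hfirst : ∀ i, 0 < i → i < k → (P.σ ^ i) a ≠ b ∧ (P.σ ^ i) a ≠ a := by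
    intro i hi hik
    refine ⟨fun h => Nat.find_min hex hik ⟨hi, h⟩, fun h => ?_⟩
    have h1 : Function.IsPeriodicPt P.σ i a := by
      rw [Function.IsPeriodicPt, Function.IsFixedPt, ← hiter]
      exact h
    have := h1.minimalPeriod_le hi
    omega
  obtain ⟨j, hj⟩ : ∃ j, k = j + 1 := ⟨k - 1, by omega⟩
  obtain ⟨P', h1, h2, h3⟩ := iterate_swap hsplit hswap j P hP hL e l₁ l₂ c b hr
    (by rw [← hj]; exact hkspec.2) (by rw [← hj]; exact hfirst)
  refine ⟨P', h1, h2, ?_, ?_⟩
  · have h4 := h3 gr rfl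
    rw [hbx] at h4
    have hj2 : j + 2 ≤ 2 * P.passes x := by omega
    set r := P.passes x with hrr
    have h5 : gr 1 = 0 := rfl
    have h6 : gr 2 = 1 := rfl
    have h7 : gr (r - 1) + (2 * r - 2) ≤ gr r := gr_step r hx
    rw [h5, h6] at h4
    omega
  · have h4 := h3 hw rfl
    rw [hbx] at h4
    have h5 : hw 1 = 0 := rfl
    have h6 : hw 2 = 0 := rfl
    have h7 : hw (P.passes x) = P.passes x := if_pos hx
    have h8 : hw (P.passes x - 1) ≤ P.passes x - 1 := by
      unfold hw; split_ifs <;> omega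
    rw [h5, h6, h7] at h4
    omega

/-- resolution for clean drawings -/
lemma crM_le_cost_clean (hcard : CardUsedStmt src tgt) (hsplit : SplitStmt src tgt)
    (hswap : SwapStmt src tgt) : ∀ (n : ℕ) (P : PreDrawing src tgt), P.cost hw = n → P.Clean →
    (∀ d, P.Used d → P.pt d ≠ P.pt (P.α d)) → crM src tgt ≤ P.cost gr := by
  classical
  intro n
  induction n using Nat.strong_induction_on with
  | _ n ih =>
    intro P hn hP hL
    by_cases hs : P.Simple
    · have h1 : P.crossings = P.cost gr := by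
        unfold crossings cost
        rw [Nat.card_eq_fintype_card, Fintype.card_subtype, Finset.card_filter]
        refine Finset.sum_congr rfl fun x _ => ?_
        have := hs x
        unfold gr
        split_ifs <;> omega
      rw [← h1]
      exact Nat.sInf_le ⟨P, hs, rfl⟩
    · unfold Simple at hs
      push Not at hs
      obtain ⟨x, hx⟩ := hs
      obtain ⟨P', h1, h2, h3, h4⟩ := exists_step hcard hsplit hswap P hP hL x (by omega)
      exact (ih _ (hn ▸ h4) P' rfl h1 h2).trans h3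

/-- **M7 (resolution).** Every drawing, in general position or not, bounds the crossing number. -/
theorem crM_le_cost_of (hclean : CleanStmt src tgt) (hcard : CardUsedStmt src tgt)
    (hsplit : SplitStmt src tgt) (hswap : SwapStmt src tgt) (P : PreDrawing src tgt)
    (hL : ∀ d, P.Used d → P.pt d ≠ P.pt (P.α d)) : crM src tgt ≤ P.cost gr := by
  classical
  obtain ⟨P', hC, i, j, hj, hα, hroute, hpt, hpass, hpass0⟩ := hclean P
  have hused : ∀ d, P'.Used d → P.Used (i d) := by
    rintro d ⟨e, he⟩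
    refine ⟨e, ?_⟩
    rw [← hroute e]
    rcases he with he | he
    · exact Or.inl (List.mem_map_of_mem he)
    · refine Or.inr ?_
      rw [← hα]
      exact List.mem_map_of_mem he
  have husedα : ∀ d, P'.Used d → P'.Used (P'.α d) := by
    rintro d ⟨e, he⟩
    refine ⟨e, ?_⟩
    rw [P'.α_invol]
    exact he.symm
  have hL' : ∀ d, P'.Used d → P'.pt d ≠ P'.pt (P'.α d) := by
    intro d hd h
    rw [hpt d hd, hpt _ (husedα d hd), hα] at h
    exact hL _ (hused d hd) (hj h)
  have hcost : P'.cost gr = P.cost gr := by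
    unfold cost
    have h1 : ∑ x : P.X, gr (P.passes x) = ∑ x ∈ (Finset.univ : Finset P.X).map ⟨j, hj⟩,
        gr (P'.passes x) := by
      rw [Finset.sum_map]
      exact Finset.sum_congr rfl fun x _ => by
        rw [Function.Embedding.coeFn_mk, hpass]
    rw [h1]
    symm
    refine Finset.sum_subset (Finset.subset_univ _) fun x _ hx => ?_
    rw [hpass0 x fun ⟨y, hy⟩ => hx (Finset.mem_map.2 ⟨y, Finset.mem_univ _, hy⟩)]
    rfl
  rw [← hcost]
  exact crM_le_cost_clean hcard hsplit hswap _ P' rfl hC hL'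

end PreDrawing

end Helper5.CR
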