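import Pool.Agent.Helper5.CR.M3
import Pool.Agent.Helper5.CR.M6
import Pool.Agent.Helper34.CR.M4
import Pool.Agent.Helper34.CR.M5
import Pool.Agent.Helper34.CR.M7

/-!
# The resolution theorem of `MP_79ec0d_co` (M4a and M7 without hypotheses)
-/

open Equiv Equiv.Perm

namespace Helper5.CR

variable {V E : Type} [Fintype E] {src tgt : E → V}

namespace PreDrawing

/-- M4a (cleaning). -/
theorem exists_clean (P : PreDrawing src tgt) :
    ∃ P' : PreDrawing src tgt, P'.Clean ∧
      ∃ i : P'.D ≃ P.D, ∃ j : P.X → P'.X, Function.Injective j ∧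
        (∀ d, i (P'.α d) = P.α (i d)) ∧ (∀ e, (P'.route e).map i = P.route e) ∧
        (∀ d, P'.Used d → P'.pt d = j (P.pt (i d))) ∧ (∀ x, P'.passes (j x) = P.passes x) ∧
        (∀ x, x ∉ Set.range j → P'.passes x = 0) :=
  exists_clean_of (fun {_} _ _ {_ _} hp U => exists_clean_perm hp U) P

/-- M7 (resolution): every drawing in general position or not bounds the crossing number. -/
theorem crM_le_cost (P : PreDrawing src tgt)
    (hL : ∀ d, P.Used d → P.pt d ≠ P.pt (P.α d)) : crM src tgt ≤ P.cost gr :=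
  crM_le_cost_of exists_clean (fun P x hx => P.card_used x hx)
    (fun P e l₁ l₂ c b hr hab => P.exists_split e l₁ l₂ c b hr hab)
    (fun P hP hL e l₁ l₂ c b hr j hb hf => exists_swap P hP hL e l₁ l₂ c b hr j hb hf) P hL

end PreDrawing

end Helper5.CR
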